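import Pool.Agent.Helper17.QD.Glue2

/-!
# Project QD, glue (MP_d112a4_gt), module MUX: from Mumford compactness to the form `StMU0`
-/

set_option autoImplicit false

open Filter Topology Matrix Set Metric MeasureTheory
open scoped ComplexConjugate ComplexOrder ENNReal

namespace Pool.Agent.Helper89.QL

open Pool.Agent.Helper17.QD Pool.Agent.Helper35.PM
open Pool.Agent.Helper68.QC (nq Bel InvB Intw)
open Pool.Agent.Helper20.QD (Fuch cj IsSU D DD SS dz dzb mob den)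

private theorem thick_of_thk {Γ : Type} [Group Γ] {σ : Γ →* SL} (hσ : Fuch σ) {ε : ℝ}
    (hε : 0 < ε) (h : Thk ε σ) : Pool.Agent.Helper20.QP.Thick σ ε := by
  intro γ hγ
  have h1 := h γ hγ
  have h2 := (hσ.su γ).1
  unfold Pool.Agent.Helper20.QP.sh
  have htr : ((σ γ : SL) : Mat).trace = ((2 * (((σ γ : SL) : Mat) 0 0).re : ℝ) : ℂ) := by
    rw [Matrix.trace_fin_two, h2, Complex.add_conj]
  rw [htr, Complex.norm_real, Real.norm_eq_abs] at h1
  rw [htr, Complex.ofReal_re]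
  have h3 : (2 + ε) ^ 2 ≤ |2 * (((σ γ : SL) : Mat) 0 0).re| ^ 2 :=
    pow_le_pow_left₀ (by linarith) h1 2
  rw [sq_abs] at h3
  nlinarith

theorem hMUX : StMUX := by
  intro hMUM hAFD hAIN hTFR hFPC hEXT hEXC g hg s0 hs0 ε hε
  have htf := hTFR g
  obtain ⟨-, hact, ⟨F, r, hr, hF, hFr⟩, -⟩ := hAFD (SurfaceGroup g) s0 hs0 htf
  have hall : ∀ σ : SurfaceGroup g →* SL, Fuch σ → ∃ F0 : Set ℂ,
      Pool.Agent.Helper20.QP.FD σ F0 ∧
      (∫ z in F0, 4 / (1 - ‖z‖ ^ 2) ^ 2) ≤ Pool.Agent.Helper86.QA.ar2 F := by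
    intro σ hσ
    obtain ⟨-, -, ⟨F0, r0, hr0, hF0, hFr0⟩, -⟩ := hAFD (SurfaceGroup g) σ hσ htf
    refine ⟨F0, hF0, ?_⟩
    have h := (hAIN (SurfaceGroup g) σ s0 hσ hs0 htf F0 F hF0 hF).1
    exact le_of_eq h
  obtain ⟨k, hk0, hk1, hk⟩ := hMUM (SurfaceGroup g) s0 (Pool.Agent.Helper86.QA.ar2 F) ε htf hs0
    hε hall
  refine ⟨k, hk0, hk1, fun σ hσ hth => ?_⟩
  obtain ⟨φ, σ', E, hσ', hor, hE1, hE2, hE3, hE4⟩ := hk σ hσ (thick_of_thk hσ hε hth)
  obtain ⟨E', hQ, hEE⟩ := hEXT k E hk0 hk1 hE1 hE2 hE3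
  refine ⟨φ, E', hQ, ?_⟩
  have hc : Cnj (pre φ s0) σ' E' := by
    refine hEXC (SurfaceGroup g) (pre φ s0) σ' k E' ((hFPC (SurfaceGroup g) s0 hs0).2.1 φ) hσ' hQ ?_
    intro γ z hz
    have hm : mob (s0 (φ γ)) z ∈ D := hact.ms (φ γ) z hz
    have h := hE4 γ z hz
    rw [hEE z hz, ← h]
    exact hEE _ hm
  rcases hor with h | h
  · left
    have : σ' = σ := MonoidHom.ext h
    rw [← this]; exact hc
  · right
    have : σ' = cc σ := by
      refine MonoidHom.ext fun γ => ?_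
      ext i j
      exact h γ i j
    rw [← this]; exact hc

end Pool.Agent.Helper89.QL
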