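import Pool.Agent.Helper17.QD.Glue

/-!
# Project QD, glue (MP_d112a4_gt), module NMC: counting functions and complex conjugation
-/

set_option autoImplicit false

open Filter Topology Matrix Set Metric MeasureTheory
open scoped ComplexConjugate ComplexOrder ENNReal

namespace Pool.Agent.Helper89.QL

open Pool.Agent.Helper17.QD Pool.Agent.Helper35.PM

private theorem tl_cc {Γ : Type} [Group Γ] (ρ : Γ →* SL) (γ : Γ) : tl (cc ρ γ) = tl (ρ γ) := by
  have htr : ((cc ρ γ : SL) : Mat).trace = conj (((ρ γ : SL) : Mat).trace) := by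
    rw [Matrix.trace_fin_two, Matrix.trace_fin_two, map_add]
    rfl
  unfold tl
  rw [htr]
  congr 2
  set t : ℂ := ((ρ γ : SL) : Mat).trace
  have key : ∀ (t μ : ℂ), μ ^ 2 - conj t * μ + 1 = 0 → (conj μ) ^ 2 - t * conj μ + 1 = 0 := by
    intro t μ h
    have h2 := congrArg (starRingEnd ℂ) h
    simp only [map_add, map_sub, map_mul, map_pow, Complex.conj_conj, map_one, map_zero] at h2
    exact h2
  ext x
  constructor
  · rintro ⟨μ, hμ, rfl⟩
    refine ⟨conj μ, key t μ hμ, ?_⟩
    simp only [RCLike.norm_conj]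
  · rintro ⟨μ, hμ, rfl⟩
    refine ⟨conj μ, key (conj t) μ ?_, ?_⟩
    · rw [Complex.conj_conj]; exact hμ
    · simp only [RCLike.norm_conj]

private theorem len_cc {Γ : Type} [Group Γ] (ρ : Γ →* SL) : len (cc ρ) = len ρ := by
  funext c
  unfold len
  exact tl_cc ρ _

private theorem classes_cc {Γ : Type} [Group Γ] (ρ : Γ →* SL) (T : ℝ) :
    classes (cc ρ) T = classes ρ T := by
  unfold classes
  rw [len_cc]

private theorem num_cc {Γ : Type} [Group Γ] (ρ : Γ →* SL) (T : ℝ) :
    num (cc ρ) T = num ρ T := by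
  unfold num
  rw [classes_cc]

theorem hNMC : StNMC := by
  intro Γ _
  refine ⟨fun ρ T => num_cc ρ T, fun ρ σ T => ?_⟩
  unfold avg
  rw [classes_cc, num_cc, len_cc, len_cc]

end Pool.Agent.Helper89.QL
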